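import Pool.Agent.W845.TR.Base

/-!
Project TR, part PEI: contours with many closed sites.
-/

set_option autoImplicit false

open Pool.Agent.W845.TR

namespace Pool.Agent.W462.TR

variable {d : ℕ}

/-- generating function of the number of closed sites in `R` -/
theorem Ex_gf (p X : ℝ) (R B : Finset (S d)) :
    Ex (fun _ => p) B (fun A => X ^ (R ∩ A).card) = (1 - p + p * X) ^ (R ∩ B).card := by
  induction B using Finset.induction_on with
  | empty => rw [Ex_empty]; simp
  | insert x B hx ih =>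
    rw [Ex_insert _ _ _ hx, ih]
    by_cases hR : x ∈ R
    · have h1 : Ex (fun _ => p) B (fun A => X ^ (R ∩ insert x A).card) =
          X * Ex (fun _ => p) B (fun A => X ^ (R ∩ A).card) := by
        rw [← Ex_mul_left]
        refine Ex_congr _ _ _ _ fun A hA => ?_
        rw [Finset.inter_insert_of_mem hR, Finset.card_insert_of_notMem, pow_succ, mul_comm]
        intro h
        exact hx (hA (Finset.mem_inter.1 h).2)
      rw [h1, ih, Finset.inter_insert_of_mem hR, Finset.card_insert_of_notMem, pow_succ]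
      · ring
      · intro h
        exact hx (Finset.mem_inter.1 h).2
    · have h1 : Ex (fun _ => p) B (fun A => X ^ (R ∩ insert x A).card) =
          Ex (fun _ => p) B (fun A => X ^ (R ∩ A).card) := by
        refine Ex_congr _ _ _ _ fun A _ => ?_
        rw [Finset.inter_insert_of_notMem hR]
      rw [h1, ih, Finset.inter_insert_of_notMem hR]
      ring

/-- many closed sites -/
theorem dev (p Y : ℝ) (hp : 0 ≤ p) (hp1 : p ≤ 1) (hY : 1 ≤ Y) (m l : ℕ) (hpY : p * Y ^ m ≤ 1)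
    (R B : Finset (S d)) (hR : R.card ≤ l) :
    Pr (fun _ => p) B (fun A => l ≤ m * (R ∩ A).card) ≤ (2 / Y) ^ l := by
  have hY0 : 0 < Y := by linarith
  have hq : ∀ x ∈ B, 0 ≤ (fun _ : S d => p) x ∧ (fun _ : S d => p) x ≤ 1 := fun _ _ => ⟨hp, hp1⟩
  have h1 : Pr (fun _ => p) B (fun A => l ≤ m * (R ∩ A).card) ≤
      Pr (fun _ => p) B (fun A => Y ^ l ≤ (Y ^ m) ^ (R ∩ A).card) := by
    refine Pr_mono _ _ _ _ hq fun A _ h => ?_
    rw [← pow_mul]
    exact pow_le_pow_right₀ hY h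
  refine h1.trans ((Pr_markov _ _ _ _ hq (fun A _ => by positivity) (by positivity)).trans ?_)
  rw [Ex_gf, div_pow]
  refine div_le_div_of_nonneg_right ?_ (by positivity)
  have h2 : 1 - p + p * Y ^ m ≤ 2 := by linarith
  have h3 : 0 ≤ 1 - p + p * Y ^ m := by
    have : 0 ≤ p * Y ^ m := by positivity
    linarith
  calc (1 - p + p * Y ^ m) ^ (R ∩ B).card ≤ 2 ^ (R ∩ B).card := pow_le_pow_left₀ h3 h2 _
    _ ≤ 2 ^ l := pow_le_pow_right₀ (by norm_num)
        ((Finset.card_le_card Finset.inter_subset_left).trans hR)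

theorem mem_eb {Wc : Finset (S d)} {y : S d} {j : Fin d} (h1 : y ∈ Wc) (h2 : y + ue j ∉ Wc) :
    (y, j) ∈ eb Wc := by
  unfold eb
  rw [Finset.mem_filter, Finset.mem_product, Finset.mem_union]
  exact ⟨⟨Or.inl h1, Finset.mem_univ _⟩, fun h => h2 (h.1 h1)⟩

theorem rt_card_le (Wc : Finset (S d)) (j : Fin d) : (rt Wc j).card ≤ (eb Wc).card := by
  refine Finset.card_le_card_of_injOn (fun y => (y, j)) ?_ ?_
  · intro y hy
    rw [Finset.mem_coe] at hy
    unfold rt at hy
    rw [Finset.mem_filter] at hy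
    exact mem_eb hy.1 hy.2
  · intro y _ y' _ h
    exact congrArg Prod.fst h

theorem eb_pos (hd : 1 ≤ d) {Wc : Finset (S d)} {v : S d} (hv : v ∈ Wc) : 1 ≤ (eb Wc).card := by
  obtain ⟨y, hy, hmax⟩ := Finset.exists_max_image Wc (fun y => y ⟨0, hd⟩) ⟨v, hv⟩
  refine Finset.card_pos.2 ⟨(y, ⟨0, hd⟩), mem_eb hy fun h => ?_⟩
  have h1 := hmax _ h
  simp [ue] at h1

theorem pei : St_CG → St_COUNT → St_PEI := by
  classical
  intro hCG hCT d hd ε hε
  obtain ⟨C, hC, hT⟩ := hCT d hd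
  have hd0 : (0 : ℝ) < d := by exact_mod_cast (show 0 < d by omega)
  have heC := Real.exp_pos C
  set y : ℝ := min (1 / 2) (ε / (2 * (d * Real.exp C))) with hy
  have hy0 : 0 < y := by
    rw [hy]; exact lt_min (by norm_num) (by positivity)
  have hy1 : y ≤ 1 / 2 := min_le_left _ _
  have hy2 : y ≤ ε / (2 * (d * Real.exp C)) := min_le_right _ _
  set Y : ℝ := 2 * Real.exp C / y with hYdef
  have hY1 : 1 ≤ Y := by
    rw [hYdef, le_div_iff₀ hy0]
    have : 1 ≤ Real.exp C := Real.one_le_exp hC.le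
    linarith
  have hY0 : 0 < Y := by linarith
  refine ⟨1 / Y ^ (4 * d), by positivity, ?_, ?_⟩
  · rw [div_le_one (by positivity)]
    exact one_le_pow₀ hY1
  intro p hp hpp v B
  have hp1 : p ≤ 1 := hpp.trans (by rw [div_le_one (by positivity)]; exact one_le_pow₀ hY1)
  have hpY : p * Y ^ (4 * d) ≤ 1 := by
    rw [le_div_iff₀ (by positivity)] at hpp
    exact hpp
  have hq : ∀ x ∈ B, 0 ≤ (fun _ : S d => p) x ∧ (fun _ : S d => p) x ≤ 1 := fun _ _ => ⟨hp.le, hp1⟩
  have hT0 : ∀ l : ℕ, ∃ T : Finset (Finset (S d)), (T.card : ℝ) ≤ Real.exp (C * (l + 1)) ∧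
      ∀ Wc : Finset (S d), v ∈ Wc → SqConn (eb Wc) → (eb Wc).card = l → Wc ∈ T := by
    intro l
    obtain ⟨T, h1, h2⟩ := hT v l 0
    refine ⟨T, ?_, fun Wc a1 a2 a3 => ?_⟩
    · refine h1.trans (le_of_eq ?_)
      congr 1
      push_cast
      ring
    · have h3 := h2 Wc a1 a2 a3
      rwa [(hCG d (by omega) 0 Wc).2.2.2.2.2.1] at h3
  choose T hTc hTm using hT0
  set N : ℕ := B.powerset.sup (fun W => (eb W).card) with hN
  -- union bound
  have h1 : Pr (fun _ => p) B (fun A => ∃ Wc : Finset (S d), Wc ⊆ B ∧ v ∈ Wc ∧ SqConn (eb Wc) ∧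
      ∃ j, (eb Wc).card ≤ 4 * d * (rt Wc j ∩ A).card) ≤
      Pr (fun _ => p) B (fun A => ∃ l ∈ Finset.Icc 1 N,
        ∃ Wc ∈ (T l).filter (fun Wc => (eb Wc).card = l), ∃ j ∈ (Finset.univ : Finset (Fin d)),
          l ≤ 4 * d * (rt Wc j ∩ A).card) := by
    refine Pr_mono _ _ _ _ hq fun A _ h => ?_
    obtain ⟨Wc, hWB, hv, hsq, j, hj⟩ := h
    refine ⟨(eb Wc).card, Finset.mem_Icc.2 ⟨eb_pos (by omega) hv, ?_⟩, Wc,
      Finset.mem_filter.2 ⟨hTm _ Wc hv hsq rfl, rfl⟩, j, Finset.mem_univ _, hj⟩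
    exact Finset.le_sup (f := fun W => (eb W).card) (Finset.mem_powerset.2 hWB)
  refine h1.trans ((Pr_exists _ _ _ _ hq).trans ?_)
  have h2 : ∀ l ∈ Finset.Icc 1 N, Pr (fun _ => p) B (fun A =>
        ∃ Wc ∈ (T l).filter (fun Wc => (eb Wc).card = l), ∃ j ∈ (Finset.univ : Finset (Fin d)),
          l ≤ 4 * d * (rt Wc j ∩ A).card) ≤ d * Real.exp C * y ^ l := by
    intro l _
    refine (Pr_exists _ _ _ _ hq).trans ?_
    have h3 : ∀ Wc ∈ (T l).filter (fun Wc => (eb Wc).card = l),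
        Pr (fun _ => p) B (fun A => ∃ j ∈ (Finset.univ : Finset (Fin d)),
          l ≤ 4 * d * (rt Wc j ∩ A).card) ≤ d * (2 / Y) ^ l := by
      intro Wc hW
      refine (Pr_exists _ _ _ _ hq).trans ?_
      refine (Finset.sum_le_sum (g := fun _ => (2 / Y) ^ l) fun j _ => ?_).trans ?_
      · refine dev p Y hp.le hp1 hY1 (4 * d) l hpY (rt Wc j) B ?_
        rw [← (Finset.mem_filter.1 hW).2]
        exact rt_card_le Wc j
      · simp
    refine (Finset.sum_le_sum h3).trans ?_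
    rw [Finset.sum_const, nsmul_eq_mul]
    have h4 : (((T l).filter (fun Wc => (eb Wc).card = l)).card : ℝ) ≤ Real.exp (C * (l + 1)) :=
      le_trans (by exact_mod_cast Finset.card_filter_le _ _) (hTc l)
    have h5 : 0 ≤ (d : ℝ) * (2 / Y) ^ l := by positivity
    refine (mul_le_mul_of_nonneg_right h4 h5).trans (le_of_eq ?_)
    have h6 : Real.exp (C * (l + 1)) = Real.exp C * Real.exp C ^ l := by
      rw [← Real.exp_nat_mul, ← Real.exp_add]
      congr 1
      ring
    have h7 : y = Real.exp C * (2 / Y) := by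
      rw [hYdef]
      field_simp
    rw [h6]
    conv_rhs => rw [h7, mul_pow]
    ring
  refine (Finset.sum_le_sum h2).trans ?_
  rw [← Finset.mul_sum]
  have h8 : ∑ l ∈ Finset.Icc 1 N, y ^ l ≤ 2 * y := by
    have e : Finset.Icc 1 N = Finset.Ico 1 (N + 1) := by
      ext i
      rw [Finset.mem_Icc, Finset.mem_Ico]
      omega
    rw [e, Finset.sum_Ico_eq_sum_range]
    calc ∑ k ∈ Finset.range (N + 1 - 1), y ^ (1 + k) ≤
        ∑ k ∈ Finset.range (N + 1 - 1), y * (1 / 2) ^ k := by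
          refine Finset.sum_le_sum fun k _ => ?_
          rw [pow_add, pow_one]
          exact mul_le_mul_of_nonneg_left (pow_le_pow_left₀ hy0.le hy1 k) hy0.le
      _ ≤ 2 * y := by
          rw [← Finset.mul_sum, mul_comm 2 y]
          exact mul_le_mul_of_nonneg_left (sum_geometric_two_le _) hy0.le
  have h9 : 0 ≤ (d : ℝ) * Real.exp C := by positivity
  refine (mul_le_mul_of_nonneg_left h8 h9).trans ?_
  rw [le_div_iff₀ (by positivity)] at hy2
  linarith

end Pool.Agent.W462.TR
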